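import Pool.Agent.MP_cce4c9_lc.H87.SpecQ
import Pool.Agent.MP_cce4c9_lc.H87.KitA

/-! The filtration by degree on the ring of the curve: the algebraic part. -/

set_option autoImplicit false

open WithZero Polynomial Finset

namespace Pool.Agent.MP_cce4c9_lc.H24

open H87 H87.Cv

variable {k : Type} [Field k] {d m : ℕ} {f : k[X]} (C : Cv k d m f)

include C in
theorem dpos : 0 < d := by have := C.hd; omega

theorem ds_zero (d m : ℕ) : ds d m 0 = 0 := by simp [ds_eq, dig]

theorem tpow_spow (n : ℕ) : C.t ^ n * C.s ^ n = 1 := by rw [← mul_pow, C.t_mul_s, one_pow]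

theorem s_cancel (n : ℕ) {y z : C.Q} (h : C.s ^ n * y = C.s ^ n * z) : y = z := by
  have := congrArg (fun w => C.t ^ n * w) h
  simp only [← mul_assoc, tpow_spow, one_mul] at this
  exact this

theorem mono_eq (e J : ℕ) :
    C.mono e J = C.s ^ (e + ds d m J) * ∏ i ∈ range m, C.x i ^ dig d J i := by
  rw [mono, ds_eq, pow_add, ← prod_pow_eq_pow_sum, mul_assoc, ← prod_mul_distrib]
  congr 1
  refine prod_congr rfl fun i _ => ?_
  rw [Y, mul_pow, mul_comm]

theorem mono_add (n e J : ℕ) : C.mono (n + e) J = C.s ^ n * C.mono e J := by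
  rw [mono, mono, pow_add, mul_assoc]

theorem indR (n : ℕ) (c : ℕ → k)
    (h : ∑ e ∈ range n, algebraMap k (RatFunc k) (c e) * (RatFunc.X⁻¹ : RatFunc k) ^ e = 0) :
    ∀ e < n, c e = 0 := by
  have ht : Transcendental k (RatFunc.X⁻¹ : RatFunc k) := fun h =>
    RatFunc.transcendental_X (IsAlgebraic.inv_iff.1 h)
  have h0 : (∑ e ∈ range n, monomial e (c e) : k[X]) = 0 := by
    by_contra hne
    refine ht ⟨_, hne, ?_⟩
    rw [map_sum, ← h]
    exact sum_congr rfl fun e _ => by rw [aeval_monomial]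
  intro e he
  have := congrArg (fun p : k[X] => p.coeff e) h0
  simpa [finset_sum_coeff, coeff_monomial, he] using this

theorem ind_core (n : ℕ → ℕ) (c : ℕ → ℕ → k)
    (h : ∑ J ∈ range (d ^ m), ∑ e ∈ range (n J), algebraMap k C.Q (c e J) * C.mono e J = 0) :
    ∀ J < d ^ m, ∀ e < n J, c e J = 0 := by
  intro J hJ
  have key := C.ind (fun J => (RatFunc.X⁻¹ : RatFunc k) ^ ds d m J *
    ∑ e ∈ range (n J), algebraMap k (RatFunc k) (c e J) * (RatFunc.X⁻¹ : RatFunc k) ^ e) (by
      rw [← h]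
      refine sum_congr rfl fun J _ => ?_
      rw [map_mul, map_sum, mul_sum, sum_mul]
      refine sum_congr rfl fun e _ => ?_
      rw [mono_eq, map_mul, map_pow, map_pow, ← IsScalarTower.algebraMap_apply, pow_add]
      show C.s ^ ds d m J * (_ * C.s ^ e) * _ = _
      ring) J hJ
  rcases mul_eq_zero.1 key with h1 | h1
  · exact absurd h1 (pow_ne_zero _ (inv_ne_zero RatFunc.X_ne_zero))
  · exact indR _ (fun e => c e J) h1

theorem aeval_f (y : C.Q) :
    aeval y f = y ^ d + ∑ j ∈ range d, algebraMap k C.Q (f.coeff j) * y ^ j := by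
  have h1 : f.coeff d = 1 := by have := C.monic.coeff_natDegree; rwa [C.deg] at this
  rw [aeval_eq_sum_range, C.deg, sum_range_succ, h1, one_smul, add_comm]
  simp only [Algebra.smul_def]

theorem eqY (i : ℕ) (hi : i < m) : C.Y i ^ d + ∑ j ∈ range d,
    algebraMap k C.Q (f.coeff j) * C.s ^ (d - j) * C.Y i ^ j = C.s ^ (d - 1) := by
  have h : C.x i ^ d + ∑ j ∈ range d, algebraMap k C.Q (f.coeff j) * C.x i ^ j = C.t := by
    rw [← aeval_f]; exact C.eqn i hi
  have h1 : C.s ^ (d - 1) = C.t * C.s ^ d := by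
    have : C.s ^ d = C.s * C.s ^ (d - 1) := by
      rw [← pow_succ']; congr 1; have := dpos C; omega
    rw [this, ← mul_assoc, C.t_mul_s, one_mul]
  rw [h1, ← h, add_mul, sum_mul, Y, mul_pow]
  congr 1
  refine sum_congr rfl fun j hj => ?_
  have : C.s ^ d = C.s ^ (d - j) * C.s ^ j := by
    rw [← pow_add, Nat.sub_add_cancel (mem_range.1 hj).le]
  rw [this, mul_pow]
  ring

theorem monoF (N N' : ℕ) (h : N ≤ N') : C.FN N ≤ C.FN N' :=
  Submodule.span_mono fun _ ⟨e, J, hJ, he, hy⟩ => ⟨e, J, hJ, he.trans h, hy⟩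

theorem const_mul_mem {W : Submodule k C.Q} (c : k) {y : C.Q} (h : y ∈ W) :
    algebraMap k C.Q c * y ∈ W := by
  rw [← Algebra.smul_def]; exact W.smul_mem c h

/-- Every monomial lies in the step of the filtration given by its degree. -/
theorem gen_mem (n : ℕ) : ∀ (a : ℕ → ℕ) (e : ℕ), ∑ i ∈ range m, a i = n →
    C.s ^ e * ∏ i ∈ range m, C.Y i ^ a i ∈ C.FN (e + n) := by
  induction n using Nat.strong_induction_on with
  | _ n ih =>
  intro a e hn
  by_cases hall : ∀ i < m, a i < d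
  · obtain ⟨J, hJ, hd⟩ := exists_dig a hall
    refine Submodule.subset_span ⟨e, J, hJ, ?_, ?_⟩
    · rw [ds_eq, ← hn, sum_congr rfl fun i hi => hd i (mem_range.1 hi)]
    · rw [mono]
      congr 1
      exact prod_congr rfl fun i hi => by rw [hd i (mem_range.1 hi)]
  · push Not at hall
    obtain ⟨i, hi, hge⟩ := hall
    have hmem : i ∈ range m := mem_range.2 hi
    have hP : ∀ r, ∏ j ∈ range m, C.Y j ^ Function.update a i r j =
        C.Y i ^ r * ∏ j ∈ (range m).erase i, C.Y j ^ a j := fun r => by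
      rw [← mul_prod_erase _ _ hmem, Function.update_self]
      congr 1
      exact prod_congr rfl fun j hj => by rw [Function.update_of_ne (ne_of_mem_erase hj)]
    have hS : ∀ r, ∑ j ∈ range m, Function.update a i r j =
        r + ∑ j ∈ (range m).erase i, a j := fun r => by
      rw [← add_sum_erase _ _ hmem, Function.update_self]
      congr 1
      exact sum_congr rfl fun j hj => by rw [Function.update_of_ne (ne_of_mem_erase hj)]
    obtain ⟨r, hr⟩ := Nat.exists_eq_add_of_le hge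
    have hn' : n = d + r + ∑ j ∈ (range m).erase i, a j := by
      rw [← hn, ← add_sum_erase _ _ hmem, hr]
    have hY : C.Y i ^ d = C.s ^ (d - 1) - ∑ j ∈ range d,
        algebraMap k C.Q (f.coeff j) * C.s ^ (d - j) * C.Y i ^ j := by
      rw [← eqY C i hi]; ring
    have hd := dpos C
    have e1 : C.s ^ e * ∏ i ∈ range m, C.Y i ^ a i =
        C.s ^ (e + (d - 1)) * ∏ j ∈ range m, C.Y j ^ Function.update a i r j -
        ∑ j ∈ range d, algebraMap k C.Q (f.coeff j) * (C.s ^ (e + (d - j)) *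
          ∏ j' ∈ range m, C.Y j' ^ Function.update a i (r + j) j') := by
      rw [← mul_prod_erase _ _ hmem, hr, pow_add, hY, hP, sub_mul, sub_mul, mul_sub, sum_mul,
        sum_mul, mul_sum]
      congr 1
      · rw [pow_add]; ring
      · refine sum_congr rfl fun j _ => ?_
        rw [hP, pow_add, pow_add]; ring
    rw [e1]
    refine Submodule.sub_mem _ ?_ (Submodule.sum_mem _ fun j hj => const_mul_mem C _ ?_)
    · exact monoF C _ _ (by omega) (ih _ (by omega) _ _ (hS r))
    · have := mem_range.1 hj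
      exact monoF C _ _ (by omega) (ih _ (by omega) _ _ (hS (r + j)))

theorem mul_span {W : Submodule k C.Q} {N : ℕ} (z : C.Q)
    (h : ∀ e J, J < d ^ m → e + ds d m J ≤ N → z * C.mono e J ∈ W) {y : C.Q} (hy : y ∈ C.FN N) :
    z * y ∈ W := by
  have : C.FN N ≤ W.comap (LinearMap.mulLeft k z) :=
    Submodule.span_le.2 fun _ ⟨e, J, hJ, he, hy⟩ => by rw [hy]; exact h e J hJ he
  exact this hy

theorem mulF (N N' : ℕ) (y y' : C.Q) (hy : y ∈ C.FN N) (hy' : y' ∈ C.FN N') :
    y * y' ∈ C.FN (N + N') := by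
  refine mul_span C y (fun e' J' _ he' => ?_) hy'
  rw [mul_comm]
  refine mul_span C _ (fun e J _ he => ?_) hy
  have h := gen_mem C _ (fun i => dig d J' i + dig d J i) (e' + e) rfl
  rw [sum_add_distrib, ← ds_eq, ← ds_eq] at h
  refine monoF C _ _ (by omega) (?_ : _ ∈ C.FN (e' + e + (ds d m J' + ds d m J)))
  convert h using 1
  simp only [mono, pow_add, prod_mul_distrib]
  ring

theorem spow_mem (e : ℕ) : C.s ^ e ∈ C.FN e := by
  simpa using gen_mem C 0 (fun _ => 0) e (by simp)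

theorem oneF : (1 : C.Q) ∈ C.FN 0 := by simpa using spow_mem C 0

theorem constF (c : k) : algebraMap k C.Q c ∈ C.FN 0 := by
  simpa using const_mul_mem C c (oneF C)

theorem powF (N : ℕ) (y : C.Q) (n : ℕ) (hy : y ∈ C.FN N) : y ^ n ∈ C.FN (n * N) := by
  induction n with
  | zero => simpa using oneF C
  | succ n ih => rw [pow_succ, Nat.succ_mul]; exact mulF C _ _ _ _ ih hy

theorem Y_mem (i : ℕ) (hi : i < m) : C.Y i ∈ C.FN 1 := by
  have h := gen_mem C 1 (fun j => if j = i then 1 else 0) 0 (by simp [hi])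
  simpa [pow_ite, hi] using h

theorem hat_mem (N : ℕ) (c : ℕ → ℕ → k) : C.hat N c ∈ C.FN N :=
  Submodule.sum_mem _ fun J hJ => Submodule.sum_mem _ fun e he => const_mul_mem C _
    (Submodule.subset_span ⟨e, J, mem_range.1 hJ, by have := mem_range.1 he; omega, rfl⟩)

theorem memF (N : ℕ) (y : C.Q) : y ∈ C.FN N ↔ ∃ c, y = C.hat N c := by
  refine ⟨fun h => ?_, fun ⟨c, h⟩ => h ▸ hat_mem C N c⟩
  induction h using Submodule.span_induction with
  | mem x hx =>
    obtain ⟨e, J, hJ, he, rfl⟩ := hx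
    refine ⟨fun e' J' => if J' = J then if e' = e then 1 else 0 else 0, ?_⟩
    rw [hat, sum_eq_single J, sum_eq_single e]
    · simp
    · intro b _ hb; simp [hb]
    · intro h; exact absurd (mem_range.2 (by omega)) h
    · intro b _ hb; simp [hb]
    · intro h; exact absurd (mem_range.2 hJ) h
  | zero => exact ⟨fun _ _ => 0, by simp [hat]⟩
  | add x y _ _ hx hy =>
    obtain ⟨c, rfl⟩ := hx
    obtain ⟨c', rfl⟩ := hy
    exact ⟨fun e J => c e J + c' e J, by simp [hat, add_mul, sum_add_distrib]⟩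
  | smul a x _ hx =>
    obtain ⟨c, rfl⟩ := hx
    exact ⟨fun e J => a * c e J, by simp [hat, Algebra.smul_def, mul_sum, mul_assoc]⟩

theorem s_AI : C.s ∈ C.AI := Algebra.subset_adjoin (Set.mem_insert _ _)

theorem Y_AI (i : ℕ) (hi : i < m) : C.Y i ∈ C.AI :=
  Algebra.subset_adjoin (Set.mem_insert_of_mem _ ⟨i, hi, rfl⟩)

theorem x_AA (i : ℕ) (hi : i < m) : C.x i ∈ C.AA := Algebra.subset_adjoin ⟨i, hi, rfl⟩

theorem FN_AI (N : ℕ) {y : C.Q} (h : y ∈ C.FN N) : y ∈ C.AI := by
  have := mul_span C (W := Subalgebra.toSubmodule C.AI) 1 (fun e J _ _ => by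
    rw [one_mul]
    exact C.AI.mul_mem (C.AI.pow_mem (s_AI C) _)
      (C.AI.prod_mem fun i hi => C.AI.pow_mem (Y_AI C i (mem_range.1 hi)) _)) h
  rwa [one_mul] at this

theorem memI (y : C.Q) : y ∈ C.AI ↔ ∃ N, y ∈ C.FN N := by
  refine ⟨fun h => ?_, fun ⟨N, h⟩ => FN_AI C N h⟩
  induction h using Algebra.adjoin_induction with
  | mem x hx =>
    rcases hx with rfl | ⟨i, hi, rfl⟩
    · exact ⟨1, by simpa using spow_mem C 1⟩
    · exact ⟨1, Y_mem C i hi⟩
  | algebraMap r => exact ⟨0, constF C r⟩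
  | add x y _ _ hx hy =>
    obtain ⟨N, hx⟩ := hx
    obtain ⟨N', hy⟩ := hy
    exact ⟨N + N', Submodule.add_mem _ (monoF C _ _ (by omega) hx) (monoF C _ _ (by omega) hy)⟩
  | mul x y _ _ hx hy =>
    obtain ⟨N, hx⟩ := hx
    obtain ⟨N', hy⟩ := hy
    exact ⟨N + N', mulF C _ _ _ _ hx hy⟩

theorem aeval_AA (g : k[X]) (i : ℕ) (hi : i < m) : aeval (C.x i) g ∈ C.AA := by
  rw [aeval_eq_sum_range]
  exact C.AA.sum_mem fun j _ => C.AA.smul_mem (C.AA.pow_mem (x_AA C i hi) _) _

theorem tA : C.t ∈ C.AA := by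
  rw [t, ← C.eqn 0 C.hm]; exact aeval_AA C f 0 C.hm

theorem dlA : C.dl ∈ C.AA := C.AA.prod_mem fun i hi => aeval_AA C _ i (mem_range.1 hi)

theorem t_mono {N e J : ℕ} (h : e + ds d m J ≤ N) : C.t ^ N * C.mono e J =
    C.t ^ (N - e - ds d m J) * ∏ i ∈ range m, C.x i ^ dig d J i := by
  rw [mono_eq, show C.t ^ N = C.t ^ (N - e - ds d m J) * C.t ^ (e + ds d m J) by
    rw [← pow_add]; congr 1; omega, mul_assoc, ← mul_assoc (C.t ^ (e + ds d m J)), tpow_spow,
    one_mul]

theorem shiftF {N : ℕ} {y : C.Q} (h : y * C.s ^ N ∈ C.FN N) (n : ℕ) :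
    y * C.s ^ (N + n) ∈ C.FN (N + n) := by
  rw [pow_add, ← mul_assoc]; exact mulF C _ _ _ _ h (spow_mem C n)

theorem memA (y : C.Q) : y ∈ C.AA ↔ ∃ N, y * C.s ^ N ∈ C.FN N := by
  refine ⟨fun h => ?_, fun ⟨N, h⟩ => ?_⟩
  · induction h using Algebra.adjoin_induction with
    | mem x hx =>
      obtain ⟨i, hi, rfl⟩ := hx
      exact ⟨1, by rw [pow_one]; exact Y_mem C i hi⟩
    | algebraMap r => exact ⟨0, by simpa using constF C r⟩
    | add x y _ _ hx hy =>
      obtain ⟨N, hx⟩ := hx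
      obtain ⟨N', hy⟩ := hy
      refine ⟨N + N', ?_⟩
      rw [add_mul]
      exact Submodule.add_mem _ (shiftF C hx N') (by rw [add_comm]; exact shiftF C hy N)
    | mul x y _ _ hx hy =>
      obtain ⟨N, hx⟩ := hx
      obtain ⟨N', hy⟩ := hy
      refine ⟨N + N', ?_⟩
      convert mulF C _ _ _ _ hx hy using 1
      rw [pow_add]; ring
  · have := mul_span C (W := Subalgebra.toSubmodule C.AA) (C.t ^ N) (fun e J _ he => by
      rw [t_mono C he]
      exact C.AA.mul_mem (C.AA.pow_mem (tA C) _)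
        (C.AA.prod_mem fun i hi => C.AA.pow_mem (x_AA C i (mem_range.1 hi)) _)) h
    rwa [mul_comm y, ← mul_assoc, tpow_spow, one_mul] at this

theorem trunc (n : ℕ) (c : ℕ → ℕ → k) (h : ∃ r ∈ C.AI, C.rec' n c = C.s ^ n * r) :
    ∀ J < d ^ m, ∀ e < n, c e J = 0 := by
  obtain ⟨r, hr, h⟩ := h
  obtain ⟨N, hN⟩ := (memI C r).1 hr
  obtain ⟨c', rfl⟩ := (memF C N r).1 hN
  intro J hJ e he
  have key := ind_core C (fun J => n + (N + 1 - ds d m J))
    (fun e J => if e < n then c e J else -c' (e - n) J) (by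
      rw [← sub_eq_zero, rec', hat, mul_sum, ← sum_sub_distrib] at h
      rw [← h]
      refine sum_congr rfl fun J _ => ?_
      rw [sum_range_add, sub_eq_add_neg, mul_sum, ← sum_neg_distrib]
      congr 1
      · exact sum_congr rfl fun e he => by rw [if_pos (mem_range.1 he)]
      · refine sum_congr rfl fun e _ => ?_
        rw [if_neg (by omega), Nat.add_sub_cancel_left, mono_add, map_neg]
        ring) J hJ e (by omega)
  rwa [if_pos he] at key

theorem sum_ext {M : Type} [AddCommMonoid M] (g : ℕ → M) {A B : ℕ} (h : A ≤ B) :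
    ∑ e ∈ range A, g e = ∑ e ∈ range B, if e < A then g e else 0 := by
  rw [← sum_filter]
  congr 1
  ext e
  simp only [mem_range, mem_filter]
  omega

theorem hat_rec (N n : ℕ) (c : ℕ → ℕ → k) (h : N < n) :
    C.hat N c = C.rec' n fun e J => if e + ds d m J ≤ N then c e J else 0 := by
  refine sum_congr rfl fun J _ => ?_
  rw [sum_ext _ (show N + 1 - ds d m J ≤ n by omega)]
  refine sum_congr rfl fun e _ => ?_
  by_cases he : e + ds d m J ≤ N
  · simp only [if_pos he]; rw [if_pos (by omega)]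
  · simp only [if_neg he]; rw [if_neg (by omega)]; simp

theorem rec_zero (n : ℕ) (c : ℕ → ℕ → k) (h : ∀ J < d ^ m, ∀ e < n, c e J = 0) :
    C.rec' n c = 0 :=
  sum_eq_zero fun J hJ => sum_eq_zero fun e he => by
    rw [h J (mem_range.1 hJ) e (mem_range.1 he), map_zero, zero_mul]

theorem truncF (N n : ℕ) (y : C.Q) (h : N < n) (hy : y ∈ C.FN N)
    (hr : ∃ r ∈ C.AI, y = C.s ^ n * r) : y = 0 := by
  obtain ⟨c, rfl⟩ := (memF C N y).1 hy
  rw [hat_rec C N n c h] at hr ⊢
  exact rec_zero C _ _ (trunc C _ _ hr)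

theorem hat_split (N n : ℕ) (c : ℕ → ℕ → k) : C.hat (N + n) c =
    (C.rec' n fun e J => if e + ds d m J ≤ N + n then c e J else 0) +
      C.s ^ n * C.hat N fun e J => c (n + e) J := by
  rw [hat, rec', hat, mul_sum, ← sum_add_distrib]
  refine sum_congr rfl fun J _ => ?_
  rw [sum_ext _ (show N + n + 1 - ds d m J ≤ n + (N + 1) by omega), sum_range_add,
    sum_ext _ (show N + 1 - ds d m J ≤ N + 1 by omega), mul_sum]
  congr 1
  · refine sum_congr rfl fun e _ => ?_
    by_cases he : e + ds d m J ≤ N + n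
    · simp only [if_pos he]; rw [if_pos (by omega)]
    · simp only [if_neg he]; rw [if_neg (by omega)]; simp
  · refine sum_congr rfl fun e _ => ?_
    by_cases he : e < N + 1 - ds d m J
    · rw [if_pos he, if_pos (by omega), mono_add]; ring
    · rw [if_neg he, if_neg (by omega), mul_zero]

theorem degI (N : ℕ) (y : C.Q) (hy : y ∈ C.AA) (h : y * C.s ^ N ∈ C.AI) :
    y * C.s ^ N ∈ C.FN N := by
  obtain ⟨n, hn⟩ := (memA C y).1 hy
  have h1 := shiftF C hn N
  rw [add_comm] at h1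
  obtain ⟨c, hc⟩ := (memF C _ _).1 h1
  rw [hat_split] at hc
  have h2 : (C.rec' n fun e J => if e + ds d m J ≤ N + n then c e J else 0) =
      C.s ^ n * (y * C.s ^ N - C.hat N fun e J => c (n + e) J) := by
    rw [mul_sub, eq_sub_iff_add_eq, ← hc, pow_add]; ring
  have h3 := rec_zero C _ _ (trunc C _ _ ⟨_, C.AI.sub_mem h (FN_AI C N (hat_mem C N _)), h2⟩)
  rw [h3, zero_add] at hc
  have h4 : y * C.s ^ N = C.hat N fun e J => c (n + e) J :=
    s_cancel C n (by rw [← hc, pow_add]; ring)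
  rw [h4]
  exact hat_mem C N _

theorem dlh_eq : C.dlh = ∏ i ∈ range m, ∑ j ∈ range d,
    algebraMap k C.Q ((derivative f).coeff j) * C.s ^ (d - 1 - j) * C.Y i ^ j := by
  have h0 : C.s ^ w0 d m = ∏ _i ∈ range m, C.s ^ (d - 1) := by
    rw [prod_const, card_range, ← pow_mul, w0, mul_comm]
  rw [dlh, dl, h0, ← prod_mul_distrib]
  refine prod_congr rfl fun i _ => ?_
  have hd := dpos C
  have hlt : (derivative f).natDegree < d := by
    have := natDegree_derivative_lt (p := f) (by rw [C.deg]; omega)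
    rwa [C.deg] at this
  rw [aeval_eq_sum_range' hlt, mul_sum]
  refine sum_congr rfl fun j hj => ?_
  have : C.s ^ (d - 1) = C.s ^ (d - 1 - j) * C.s ^ j := by
    rw [← pow_add]; congr 1; have := mem_range.1 hj; omega
  rw [this, Algebra.smul_def, Y, mul_pow]
  ring

theorem dlF : C.dlh ∈ C.FN (w0 d m) := by
  rw [dlh_eq, w0]
  have key : ∀ n ≤ m, ∏ i ∈ range n, ∑ j ∈ range d, algebraMap k C.Q ((derivative f).coeff j) *
      C.s ^ (d - 1 - j) * C.Y i ^ j ∈ C.FN (n * (d - 1)) := by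
    intro n hn
    induction n with
    | zero => simpa using oneF C
    | succ n ih =>
      rw [prod_range_succ, Nat.succ_mul]
      refine mulF C _ _ _ _ (ih (by omega)) (Submodule.sum_mem _ fun j hj => ?_)
      rw [mul_assoc]
      refine const_mul_mem C _ (monoF C _ _ ?_
        (mulF C _ _ _ _ (spow_mem C _) (powF C _ _ j (Y_mem C n (by omega)))))
      have := mem_range.1 hj
      omega
  exact key m le_rfl

theorem nil (i : ℕ) (hi : i < m) : ∃ r ∈ C.AI, C.Y i ^ d = C.s * r := by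
  have hd := C.hd
  refine ⟨C.s ^ (d - 2) - ∑ j ∈ range d,
    algebraMap k C.Q (f.coeff j) * C.s ^ (d - j - 1) * C.Y i ^ j, ?_, ?_⟩
  · exact C.AI.sub_mem (C.AI.pow_mem (s_AI C) _) (C.AI.sum_mem fun j _ => C.AI.mul_mem
      (C.AI.mul_mem (C.AI.algebraMap_mem _) (C.AI.pow_mem (s_AI C) _))
      (C.AI.pow_mem (Y_AI C i hi) _))
  · rw [mul_sub, ← pow_succ', show d - 2 + 1 = d - 1 by omega, ← eqY C i hi, mul_sum,
      eq_sub_iff_add_eq]
    congr 1
    refine sum_congr rfl fun j hj => ?_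
    have : C.s ^ (d - j) = C.s * C.s ^ (d - j - 1) := by
      rw [← pow_succ']; congr 1; have := mem_range.1 hj; omega
    rw [this]; ring

theorem psi_eq (N : ℕ) (c : ℕ → ℕ → k) :
    C.psi N c = ∑ J ∈ range (d ^ m), ∑ e ∈ range (N + 1 - ds d m J), algebraMap k C.Q (c e J) *
      (C.t ^ (N - e - ds d m J) * ∏ i ∈ range m, C.x i ^ dig d J i) := by
  rw [psi, hat, mul_sum]
  refine sum_congr rfl fun J _ => ?_
  rw [mul_sum]
  refine sum_congr rfl fun e he => ?_
  rw [← t_mono C (by have := mem_range.1 he; omega)]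
  ring

theorem psi_hat (N : ℕ) (c : ℕ → ℕ → k) : C.psi N c * C.s ^ N = C.hat N c := by
  rw [psi, mul_right_comm, tpow_spow, one_mul]

end Pool.Agent.MP_cce4c9_lc.H24
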