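import Pool.Agent.MP_cce4c9_lc.H24.HA1

/-! The local behaviour of the two coordinate rings. -/

set_option autoImplicit false

open WithZero Polynomial Finset

namespace Pool.Agent.MP_cce4c9_lc.H24

open H87 H87.Cv

variable {k : Type} [Field k] {d m : ℕ} {f : k[X]} (C : Cv k d m f)

theorem val_aeval_le (v : Place k C.Q) {y : C.Q} (hy : v.val y ≤ 1) (g : k[X]) :
    v.val (aeval y g) ≤ 1 := by
  rw [aeval_eq_sum_range]
  refine v.val.map_sum_le fun j _ => ?_
  rw [Algebra.smul_def, map_mul, map_pow]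
  exact mul_le_one' (v.const_le _) (pow_le_one' hy _)

theorem val_aeval_eq (v : Place k C.Q) {y : C.Q} (hy : 1 < v.val y) {g : k[X]} (hg : g ≠ 0) :
    v.val (aeval y g) = v.val y ^ g.natDegree := by
  have h0 : v.val y ≠ 0 := (zero_lt_one.trans hy).ne'
  have h1 : v.val (g.coeff g.natDegree • y ^ g.natDegree) = v.val y ^ g.natDegree := by
    rw [Algebra.smul_def, map_mul, map_pow, v.triv _ (by simpa using hg), one_mul]
  rw [aeval_eq_sum_range, sum_range_succ, add_comm, v.val.map_add_eq_of_lt_left, h1]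
  rw [h1]
  refine v.val.map_sum_lt (pow_ne_zero _ h0) fun j hj => ?_
  rw [Algebra.smul_def, map_mul, map_pow]
  exact (mul_le_of_le_one_left' (v.const_le _)).trans_lt (pow_lt_pow_right₀ hy (mem_range.1 hj))

theorem val_t (v : Place k C.Q) {i : ℕ} (hi : i < m) (h : 1 < v.val (C.x i)) :
    v.val C.t = v.val (C.x i) ^ d := by
  rw [t, ← C.eqn i hi, val_aeval_eq C v h C.monic.ne_zero, C.deg]

theorem fin_x (v : Place k C.Q) (h : v.val C.t ≤ 1) {i : ℕ} (hi : i < m) : v.val (C.x i) ≤ 1 := by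
  by_contra hlt
  rw [not_le] at hlt
  rw [val_t C v hi hlt] at h
  exact absurd h (not_le.2 (one_lt_pow₀ hlt (dpos C).ne'))

theorem inf_x (v : Place k C.Q) (h : 1 < v.val C.t) {i : ℕ} (hi : i < m) : 1 < v.val (C.x i) := by
  by_contra hle
  rw [not_lt] at hle
  rw [t, ← C.eqn i hi] at h
  exact absurd (val_aeval_le C v hle f) (not_le.2 h)

theorem val_adjoin (v : Place k C.Q) (S : Set C.Q) (hS : ∀ y ∈ S, v.val y ≤ 1) :
    ∀ y ∈ Algebra.adjoin k S, v.val y ≤ 1 := by
  intro y hy
  induction hy using Algebra.adjoin_induction with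
  | mem x hx => exact hS x hx
  | algebraMap r => exact v.const_le r
  | add x y _ _ hx hy => exact (v.val.map_add _ _).trans (max_le hx hy)
  | mul x y _ _ hx hy => rw [map_mul]; exact mul_le_one' hx hy

theorem finA (v : Place k C.Q) (h : v.val C.t ≤ 1) : ∀ y ∈ C.AA, v.val y ≤ 1 :=
  val_adjoin C v _ fun _ ⟨_, hi, hy⟩ => hy ▸ fin_x C v h hi

theorem val_ts (v : Place k C.Q) : v.val C.t * v.val C.s = 1 := by
  rw [← map_mul, C.t_mul_s, map_one]

theorem val_s_ne (v : Place k C.Q) : v.val C.s ≠ 0 := v.val_unit_ne C.su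

theorem inf_s (v : Place k C.Q) (h : 1 < v.val C.t) : v.val C.s < 1 := by
  by_contra hle
  rw [not_lt] at hle
  have := val_ts C v
  exact absurd this (one_lt_mul_of_lt_of_le' h hle).ne'

theorem fin_s (v : Place k C.Q) (h : v.val C.t ≤ 1) : 1 ≤ v.val C.s := by
  by_contra hlt
  rw [not_le] at hlt
  have := val_ts C v
  rw [mul_comm] at this
  exact absurd this (mul_lt_one_of_lt_of_le hlt h).ne

theorem inf_Y (v : Place k C.Q) (h : 1 < v.val C.t) {i : ℕ} (hi : i < m) : v.val (C.Y i) < 1 := by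
  have hx := inf_x C v h hi
  have h1 : v.val (C.x i) < v.val C.t := by
    rw [val_t C v hi hx]
    exact lt_self_pow₀ hx (by have := C.hd; omega)
  rw [Y, map_mul, ← val_ts C v]
  exact mul_lt_mul_of_pos_right h1 (zero_lt_iff.2 (val_s_ne C v))

theorem val_prod_lt (v : Place k C.Q) (g : ℕ → C.Q) (S : Finset ℕ) (hle : ∀ i ∈ S, v.val (g i) ≤ 1)
    {i : ℕ} (hi : i ∈ S) (hlt : v.val (g i) < 1) : v.val (∏ j ∈ S, g j) < 1 := by
  rw [← mul_prod_erase _ _ hi, map_mul, map_prod]
  exact mul_lt_one_of_lt_of_le hlt (prod_le_one' fun j hj => hle j (mem_of_mem_erase hj))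

theorem inf_dlh (v : Place k C.Q) (h : 1 < v.val C.t) : v.val C.dlh < 1 := by
  have key : ∀ i ∈ range m, v.val (∑ j ∈ range d, algebraMap k C.Q ((derivative f).coeff j) *
      C.s ^ (d - 1 - j) * C.Y i ^ j) < 1 := fun i hi => by
    refine v.val.map_sum_lt one_ne_zero fun j hj => ?_
    have hY := inf_Y C v h (mem_range.1 hi)
    have hs := inf_s C v h
    rw [mul_assoc, map_mul, map_mul, map_pow, map_pow]
    refine (mul_le_of_le_one_left' (v.const_le _)).trans_lt ?_
    rcases Nat.eq_zero_or_pos j with rfl | hj0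
    · rw [pow_zero, mul_one]
      exact pow_lt_one' hs (by have := C.hd; omega)
    · rw [mul_comm]
      exact mul_lt_one_of_lt_of_le (pow_lt_one' hY hj0.ne') (pow_le_one' hs.le _)
  rw [dlh_eq]
  exact val_prod_lt C v _ _ (fun i hi => (key i hi).le) (mem_range.2 C.hm)
    (key 0 (mem_range.2 C.hm))

theorem inf_AI (v : Place k C.Q) (h : 1 < v.val C.t) : ∀ y ∈ C.AI, v.val y ≤ 1 :=
  val_adjoin C v _ fun y hy => by
    rcases hy with rfl | ⟨i, hi, rfl⟩
    · exact (inf_s C v h).le
    · exact (inf_Y C v h hi).le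

theorem inf_mono (v : Place k C.Q) (h : 1 < v.val C.t) {e J : ℕ} (hJ : J < d ^ m)
    (hne : ¬ (J = 0 ∧ e = 0)) : v.val (C.mono e J) < 1 := by
  have hs := inf_s C v h
  have hle : ∀ i ∈ range m, v.val (C.Y i ^ dig d J i) ≤ 1 := fun i hi => by
    rw [map_pow]; exact pow_le_one' (inf_Y C v h (mem_range.1 hi)).le _
  rw [mono, map_mul, map_pow]
  by_cases he : e = 0
  · have hJ0 : J ≠ 0 := fun h0 => hne ⟨h0, he⟩
    have : ∃ i < m, dig d J i ≠ 0 := by
      by_contra hall
      push Not at hall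
      exact hJ0 (eq_of_dig hJ (pow_pos (dpos C) m) fun i hi => by rw [hall i hi]; simp [dig])
    obtain ⟨i, hi, hd⟩ := this
    rw [he, pow_zero, one_mul]
    refine val_prod_lt C v _ _ hle (mem_range.2 hi) ?_
    rw [map_pow]
    exact pow_lt_one' (inf_Y C v h hi) hd
  · refine mul_lt_one_of_lt_of_le (pow_lt_one' hs he) ?_
    rw [map_prod]
    exact prod_le_one' hle

theorem inf_hat (v : Place k C.Q) (h : 1 < v.val C.t) (N : ℕ) (c : ℕ → ℕ → k) :
    v.val (C.hat N c - algebraMap k C.Q (c 0 0)) < 1 := by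
  have h1 : algebraMap k C.Q (c 0 0) = ∑ J ∈ range (d ^ m), ∑ e ∈ range (N + 1 - ds d m J),
      if J = 0 ∧ e = 0 then algebraMap k C.Q (c 0 0) else 0 := by
    rw [sum_eq_single 0, sum_eq_single 0]
    · simp
    · intro b _ hb; simp [hb]
    · intro h; exact absurd (mem_range.2 (by rw [ds_zero]; omega)) h
    · intro b _ hb; simp [hb]
    · intro h; exact absurd (mem_range.2 (pow_pos (dpos C) m)) h
  rw [h1, hat, ← sum_sub_distrib]
  refine v.val.map_sum_lt one_ne_zero fun J hJ => ?_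
  rw [← sum_sub_distrib]
  refine v.val.map_sum_lt one_ne_zero fun e _ => ?_
  by_cases h0 : J = 0 ∧ e = 0
  · rw [if_pos h0, h0.1, h0.2]
    simp [mono, dig]
  · rw [if_neg h0, sub_zero, map_mul]
    exact (mul_le_of_le_one_left' (v.const_le _)).trans_lt (inf_mono C v h (mem_range.1 hJ) h0)

theorem near_add {v : Place k C.Q} {a b : C.Q} {c c' : k}
    (ha : v.val (a - algebraMap k C.Q c) < 1) (hb : v.val (b - algebraMap k C.Q c') < 1) :
    v.val (a + b - algebraMap k C.Q (c + c')) < 1 := by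
  rw [map_add, show a + b - (algebraMap k C.Q c + algebraMap k C.Q c') =
    (a - algebraMap k C.Q c) + (b - algebraMap k C.Q c') by ring]
  exact (v.val.map_add _ _).trans_lt (max_lt ha hb)

theorem near_aeval {v : Place k C.Q} {a : C.Q} {c : k}
    (ha : v.val (a - algebraMap k C.Q c) < 1) (g : k[X]) :
    v.val (aeval a g - algebraMap k C.Q (g.eval c)) < 1 := by
  induction g using Polynomial.induction_on with
  | C r => simp
  | add p q hp hq => rw [map_add, eval_add]; exact near_add C hp hq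
  | monomial n r ih =>
    rw [pow_succ, ← mul_assoc, map_mul, eval_mul, aeval_X, eval_X]
    exact near_mul ih ha

theorem near_prod {v : Place k C.Q} (g : ℕ → C.Q) (c : ℕ → k) (n : ℕ)
    (h : ∀ i < n, v.val (g i - algebraMap k C.Q (c i)) < 1) :
    v.val (∏ i ∈ range n, g i - algebraMap k C.Q (∏ i ∈ range n, c i)) < 1 := by
  induction n with
  | zero => simp
  | succ n ih =>
    rw [prod_range_succ, prod_range_succ]
    exact near_mul (ih fun i hi => h i (by omega)) (h n (by omega))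

theorem atA (y : C.Q) (hy : y ∈ C.AA) (a : ℕ → k) :
    ∃ c : k, ∀ v, C.At v a → v.val (y - algebraMap k C.Q c) < 1 := by
  induction hy using Algebra.adjoin_induction with
  | mem x hx =>
    obtain ⟨i, hi, rfl⟩ := hx
    exact ⟨a i, fun v hv => hv i hi⟩
  | algebraMap r => exact ⟨r, fun v _ => by simp⟩
  | add x y _ _ hx hy =>
    obtain ⟨c, hx⟩ := hx
    obtain ⟨c', hy⟩ := hy
    exact ⟨c + c', fun v hv => near_add C (hx v hv) (hy v hv)⟩
  | mul x y _ _ hx hy =>
    obtain ⟨c, hx⟩ := hx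
    obtain ⟨c', hy⟩ := hy
    exact ⟨c * c', fun v hv => near_mul (hx v hv) (hy v hv)⟩

theorem atT (v : Place k C.Q) (a : ℕ → k) (h : C.At v a) :
    v.val C.t ≤ 1 ∧ v.val (C.t - algebraMap k C.Q (f.eval (a 0))) < 1 ∧
    v.val (C.dl - algebraMap k C.Q (∏ i ∈ range m, (derivative f).eval (a i))) < 1 ∧
    ∀ i < m, f.eval (a i) = f.eval (a 0) := by
  have key : ∀ i < m, v.val (C.t - algebraMap k C.Q (f.eval (a i))) < 1 := fun i hi => by
    rw [t, ← C.eqn i hi]; exact near_aeval C (h i hi) f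
  exact ⟨v.le_of_sub_lt (key 0 C.hm), key 0 C.hm,
    near_prod C _ _ m fun i hi => near_aeval C (h i hi) _,
    fun i hi => v.const_eq (key i hi) (key 0 C.hm)⟩

variable {C}

theorem Dinf_apply (A : C.QA) (v : Place k C.Q) :
    C.Dinf v = if 1 < v.val C.t then v.ord C.s else 0 := by
  rw [Dinf, Finsupp.sup_apply, dv_apply (A.fins _), Finsupp.zero_apply]
  split_ifs with h
  · exact sup_eq_left.2 ((v.val_le_one (val_s_ne C v)).1 (inf_s C v h).le)
  · refine sup_eq_right.2 ?_
    by_contra hlt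
    rw [not_le, ← v.val_lt_one (val_s_ne C v)] at hlt
    exact absurd (fin_s C v (not_lt.1 h)) (not_le.2 hlt)

theorem dlU (A : C.QA) : IsUnit C.dl := A.unit _ fun v hv => by
  rw [dl, map_prod]
  refine prod_ne_zero_iff.2 fun i hi => ?_
  have hx := inf_x C v hv (mem_range.1 hi)
  rw [val_aeval_eq C v hx C.sep]
  exact pow_ne_zero _ (zero_lt_one.trans hx).ne'

theorem bad (A : C.QA) : {v | C.Bad v}.Finite ∧ {v | C.Bad v}.ncard ≤ w0 d m * d ^ m := by
  classical
  obtain ⟨u, hu⟩ := dlU A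
  have hne : ∀ v : Place k C.Q, v.val C.dl ≠ 0 := fun v => hu ▸ v.val_unit_ne u
  have hpos : ∀ v, C.Bad v → 0 < v.ord C.dl := fun v hv => (v.val_lt_one (hne v)).1 hv.2
  have hfin : {v | C.Bad v}.Finite := (A.fins C.dl).subset fun v hv => (hpos v hv).ne'
  refine ⟨hfin, ?_⟩
  set D : Dv k C.Q := dv k C.dl + (w0 d m : ℕ) • C.Dinf with hD
  have hdeg : D.degree = ((w0 d m * d ^ m : ℕ) : ℤ) := by
    have h0 := A.deg u
    rw [hu] at h0
    rw [hD, map_add, h0, map_nsmul, A.pole, zero_add, nsmul_eq_mul]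
    push_cast
    ring
  have happ : ∀ v, D v = v.ord C.dl + w0 d m * if 1 < v.val C.t then v.ord C.s else 0 :=
    fun v => by
      rw [hD, Finsupp.add_apply, dv_apply (A.fins _), Finsupp.smul_apply, Dinf_apply A,
        nsmul_eq_mul]
  have hnn : ∀ v, 0 ≤ D v := fun v => by
    rw [happ]
    split_ifs with h
    · have h0 : v.val (C.s ^ w0 d m) ≠ 0 := by rw [map_pow]; exact pow_ne_zero _ (val_s_ne C v)
      have h1 : v.val C.dlh ≠ 0 := by rw [dlh, map_mul]; exact mul_ne_zero h0 (hne v)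
      have h2 := (v.val_le_one h1).1 (inf_dlh C v h).le
      rw [dlh, v.ord_mul h0 (hne v), v.ord_pow] at h2
      linarith
    · rw [mul_zero, add_zero]
      exact (v.val_le_one (hne v)).1 (finA C v (not_lt.1 h) _ (dlA C))
  have hbad : ∀ v ∈ hfin.toFinset, 1 ≤ D v := fun v hv => by
    have hv' : C.Bad v := hfin.mem_toFinset.1 hv
    rw [happ, if_neg (not_lt.2 hv'.1), mul_zero, add_zero]
    exact hpos v hv'
  have h1 : (hfin.toFinset.card : ℤ) ≤ D.degree := by
    rw [Finsupp.degree_apply]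
    calc (hfin.toFinset.card : ℤ) = ∑ _v ∈ hfin.toFinset, (1 : ℤ) := by simp
      _ ≤ ∑ v ∈ hfin.toFinset, D v := sum_le_sum hbad
      _ ≤ ∑ v ∈ D.support, D v := sum_le_sum_of_subset_of_nonneg
        (fun v hv => Finsupp.mem_support_iff.2 (by have := hbad v hv; omega)) fun v _ _ => hnn v
  rw [hdeg] at h1
  rw [Set.ncard_eq_toFinset_card _ hfin]
  exact_mod_cast h1

theorem ha : StmtHA := fun k _ _ d m f C A =>
  { ind := fun n c h => ind_core C (fun _ => n) c h
    indh := fun N c h J hJ e he => ind_core C (fun J => N + 1 - ds d m J) c h J hJ e (by omega)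
    memF := memF C
    mulF := mulF C
    oneF := oneF C
    monoF := monoF C
    powF := powF C
    memI := memI C
    memA := memA C
    trunc := trunc C
    truncF := truncF C
    hat_rec := hat_rec C
    degI := degI C
    dlF := dlF C
    dlU := dlU A
    dlh_eq := dlh_eq C
    eqY := eqY C
    nil := nil C
    psi_eq := psi_eq C
    psi_hat := psi_hat C
    tA := tA C
    dlA := dlA C
    finA := finA C
    infI := fun v h => ⟨inf_s C v h, fun _ hi => inf_Y C v h hi, inf_dlh C v h, inf_AI C v h,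
      inf_hat C v h⟩
    atA := atA C
    atT := atT C
    at_ev := fun v h _ hi => (A.res v).ev_spec (fin_x C v h hi)
    Dinf_apply := Dinf_apply A
    bad := bad A
    infs := (A.fins C.s).subset fun v hv =>
      ((v.val_lt_one (val_s_ne C v)).1 (inf_s C v hv)).ne' }

end Pool.Agent.MP_cce4c9_lc.H24
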